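import Mathlib
import Pool.Agent.W957.CH.Stm

set_option autoImplicit false

/-! CH-PR1 and CH-PR2: one ear and two parallel ears. -/

namespace Pool.Agent.W120.CH

open Finset Pool.Agent.W957.CH

variable {V : Type}

/-- adjacent, and consecutive if both vertices are on the cycle -/
def QQ (G : SimpleGraph V) (n : ℕ) (c : ℕ → V) (x y : V) : Prop :=
  G.Adj x y ∧ ∀ i j, i < n → j < n → c i = x → c j = y → cons n i j

lemma cons_symm {n i j : ℕ} (h : cons n i j) : cons n j i := by
  unfold Pool.Agent.W957.CH.cons at *; omega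

lemma QQ.symm {G : SimpleGraph V} {n : ℕ} {c : ℕ → V} {x y : V} (h : QQ G n c x y) :
    QQ G n c y x :=
  ⟨h.1.symm, fun i j hi hj h1 h2 => cons_symm (h.2 j i hj hi h2 h1)⟩

lemma mem_sg {c : ℕ → V} {a b : ℕ} {x : V} :
    x ∈ sg c a b ↔ ∃ i, a ≤ i ∧ i ≤ b ∧ c i = x := by
  unfold sg
  rw [List.mem_map]
  constructor
  · rintro ⟨i, hi, rfl⟩
    rw [List.mem_range'_1] at hi
    exact ⟨i, hi.1, by omega, rfl⟩
  · rintro ⟨i, h1, h2, rfl⟩
    exact ⟨i, by rw [List.mem_range'_1]; omega, rfl⟩

lemma sg_length (c : ℕ → V) (a b : ℕ) : (sg c a b).length = b + 1 - a := by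
  simp [sg]

lemma sg_head (c : ℕ → V) {a b : ℕ} (h : a ≤ b) : (sg c a b).head? = some (c a) := by
  unfold sg
  rw [List.head?_map, List.head?_range', if_neg (by omega)]
  rfl

lemma sg_last (c : ℕ → V) {a b : ℕ} (h : a ≤ b) : (sg c a b).getLast? = some (c b) := by
  unfold sg
  rw [List.getLast?_map, List.getLast?_range', if_neg (by omega)]
  simp only [Option.map_some]
  congr 2
  omega

lemma sg_nodup {G : SimpleGraph V} {n : ℕ} {c : ℕ → V} (hc : CR G n c) {a b : ℕ} (hb : b < n) :
    (sg c a b).Nodup := by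
  unfold sg
  refine (List.nodup_map_iff_inj_on List.nodup_range').mpr ?_
  intro i hi j hj h
  rw [List.mem_range'_1] at hi hj
  exact hc.inj i j (by omega) (by omega) h

lemma sg_chain {G : SimpleGraph V} {n : ℕ} {c : ℕ → V} (hc : CR G n c) {a b : ℕ} (hb : b < n) :
    (sg c a b).IsChain (QQ G n c) := by
  rw [List.isChain_iff_getElem]
  intro i hi
  rw [sg_length] at hi
  have e : ∀ (k : ℕ) (hk : k < (sg c a b).length), (sg c a b)[k] = c (a + k) := by
    intro k hk
    simp [sg]
  rw [e, e]
  have h1 := hc.adj (a + i) (by omega)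
  refine ⟨by simpa [add_assoc] using h1, ?_⟩
  intro i' j' hi' hj' h1 h2
  have e1 := hc.inj i' (a + i) hi' (by omega) h1
  have e2 := hc.inj j' (a + (i + 1)) hj' (by omega) h2
  left
  omega

lemma sgr_chain {G : SimpleGraph V} {n : ℕ} {c : ℕ → V} (hc : CR G n c) {a b : ℕ} (hb : b < n) :
    (sg c a b).reverse.IsChain (QQ G n c) := by
  rw [List.isChain_reverse]
  exact (sg_chain hc hb).imp (fun _ _ h => h.symm)

lemma not_img {n : ℕ} [DecidableEq V] {c : ℕ → V} {x : V} (hx : x ∉ img n c) {i : ℕ}
    (hi : i < n) : c i ≠ x := by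
  intro h
  apply hx
  unfold img
  rw [Finset.mem_image]
  exact ⟨i, Finset.mem_range.mpr hi, h⟩

lemma qq_left {G : SimpleGraph V} [DecidableEq V] {n : ℕ} {c : ℕ → V} {x y : V} (h : G.Adj x y)
    (hx : x ∉ img n c) : QQ G n c x y :=
  ⟨h, fun _ _ hi _ h1 _ => absurd h1 (not_img hx hi)⟩

lemma qq_right {G : SimpleGraph V} [DecidableEq V] {n : ℕ} {c : ℕ → V} {x y : V} (h : G.Adj x y)
    (hy : y ∉ img n c) : QQ G n c x y :=
  ⟨h, fun _ _ _ hj _ h2 => absurd h2 (not_img hy hj)⟩

/-- a list outside the cycle which is a chain is a chain for the stronger relation -/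
lemma out_chain {G : SimpleGraph V} [DecidableEq V] {n : ℕ} {c : ℕ → V} {R : List V}
    (h : R.IsChain G.Adj) (hR : ∀ x ∈ R, x ∉ img n c) : R.IsChain (QQ G n c) := by
  rw [List.isChain_iff_getElem] at h ⊢
  intro i hi
  exact qq_left (h i hi) (hR _ (List.getElem_mem _))

/-- the properties of an ear which are used -/
structure EarP [DecidableEq V] (X : Cx V) (n : ℕ) (c : ℕ → V) (a b : ℕ) (R : List V) : Prop where
  nodup : R.Nodup
  chain : R.IsChain (QQ X.G n c)
  pos : 1 ≤ R.length
  fst : ∀ x ∈ R.head?, QQ X.G n c (c a) x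
  lst : ∀ x ∈ R.getLast?, QQ X.G n c x (c b)
  out : ∀ x ∈ R, x ∈ X.A ∧ x ∉ img n c

lemma earP [DecidableEq V] {X : Cx V} {n : ℕ} {c : ℕ → V} {a b : ℕ} {R : List V}
    (h : Ear X n c a b R) : EarP X n c a b R := by
  obtain ⟨⟨u, v, ⟨⟨hnd, hch⟩, hh, hl⟩, h1, h2⟩, hout⟩ := h
  have huR : u ∈ R := List.mem_of_mem_head? hh
  have hvR : v ∈ R := List.mem_of_getLast? hl
  refine ⟨hnd, out_chain hch (fun x hx => (hout x hx).2), ?_, ?_, ?_, hout⟩
  · exact List.length_pos_of_mem huR
  · intro x hx
    rw [hh] at hx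
    cases hx
    exact qq_right h1 (hout u huR).2
  · intro x hx
    rw [hl] at hx
    cases hx
    exact qq_left h2 (hout v hvR).2

/-- the ear in the opposite direction -/
lemma EarP.rev [DecidableEq V] {X : Cx V} {n : ℕ} {c : ℕ → V} {a b : ℕ} {R : List V}
    (h : EarP X n c a b R) : EarP X n c b a R.reverse := by
  refine ⟨List.nodup_reverse.mpr h.nodup, ?_, by simpa using h.pos, ?_, ?_, ?_⟩
  · rw [List.isChain_reverse]
    exact h.chain.imp (fun _ _ h => h.symm)
  · intro x hx
    rw [List.head?_reverse] at hx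
    exact (h.lst x hx).symm
  · intro x hx
    rw [List.getLast?_reverse] at hx
    exact (h.fst x hx).symm
  · intro x hx
    exact h.out x (List.mem_reverse.mp hx)

/-- general construction of a rerouting -/
lemma mk_rer [DecidableEq V] {X : Cx V} {n : ℕ} {c : ℕ → V} (hg : Good X n c) {l : List V}
    {Rm : Finset ℕ} {E : List V} (hnd : l.Nodup) (hch : l.IsChain (QQ X.G n c))
    (hh : l.head? = some (c 0)) (hl : l.getLast? = some (c (n - 1))) (hlen : 3 ≤ l.length)
    (hmem : ∀ x, x ∈ l ↔ (∃ i, i < n ∧ i ∉ Rm ∧ c i = x) ∨ x ∈ E)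
    (hE : ∀ x ∈ E, x ∈ X.A ∧ x ∉ img n c) (hfr : ∀ i ∈ Rm, i < n ∧ ¬ chE X.G n c i) :
    Rer X n c l Rm E := by
  have hcr := hg.cr
  have h3 := hcr.three
  refine ⟨⟨hlen, ⟨hnd, hch.imp (fun _ _ h => h.1)⟩, ?_⟩, hmem, hE, hfr, ?_⟩
  · intro a b ha hb
    rw [hh] at ha
    rw [hl] at hb
    cases ha
    cases hb
    exact hcr.clo
  · have key : ∀ i j, i < n → j < n → Nx l (c i) (c j) → cons n i j := by
      intro i j hi hj hN
      rcases hN with ⟨l1, l2, he⟩ | ⟨h1, h2⟩
      · rw [he, List.isChain_append_cons_cons] at hch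
        exact hch.2.1.2 i j hi hj rfl rfl
      · rw [hl] at h1
        rw [hh] at h2
        have e1 := hcr.inj _ _ (by omega) hi (Option.some.inj h1)
        have e2 := hcr.inj _ _ (by omega) hj (Option.some.inj h2)
        right; right; right
        exact ⟨e2.symm, e1.symm⟩
    intro i j hi hj h
    rcases h with h | h
    · exact key i j hi hj h
    · exact cons_symm (key j i hj hi h)

/-- joining chains -/
lemma chain_app {R : V → V → Prop} {l1 l2 : List V} (h1 : l1.IsChain R) (h2 : l2.IsChain R)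
    (h : ∀ x ∈ l1.getLast?, ∀ y ∈ l2.head?, R x y) : (l1 ++ l2).IsChain R :=
  List.isChain_append.mpr ⟨h1, h2, h⟩

theorem t_PR1 : S_PR1 := by
  intro V _ X n c a b R hg hab hbn hfree hear
  have hcr := hg.cr
  have h3 := hcr.three
  have hp := earP hear
  have hRne : R ≠ [] := by
    intro h; have := hp.pos; rw [h] at this; simp at this
  have hin : ∀ {i : ℕ} {x : V}, i < n → c i = x → x ∉ R := fun hi h hx =>
    not_img (hp.out _ hx).2 hi h
  apply mk_rer hg
  · rw [List.nodup_append, List.nodup_append]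
    refine ⟨⟨sg_nodup hcr (by omega), hp.nodup, ?_⟩, sg_nodup hcr (by omega), ?_⟩
    · intro x hx y hy hxy
      obtain ⟨i, _, h2, h4⟩ := mem_sg.mp hx
      exact hin (by omega) h4 (hxy ▸ hy)
    · intro x hx y hy hxy
      obtain ⟨j, h1', h2', h4'⟩ := mem_sg.mp hy
      rcases List.mem_append.mp hx with hx | hx
      · obtain ⟨i, _, h2, h4⟩ := mem_sg.mp hx
        have := hcr.inj i j (by omega) (by omega) (by rw [h4, h4', hxy])
        omega
      · exact hin (by omega) h4' (hxy ▸ hx)
  · refine chain_app (chain_app (sg_chain hcr (by omega)) hp.chain ?_) (sg_chain hcr (by omega)) ?_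
    · intro x hx y hy
      rw [sg_last c (by omega)] at hx
      cases hx
      exact hp.fst y hy
    · intro x hx y hy
      rw [sg_head c (by omega)] at hy
      cases hy
      rw [List.getLast?_append_of_ne_nil _ hRne] at hx
      exact hp.lst x hx
  · rw [List.append_assoc, List.head?_append_of_ne_nil, sg_head c (by omega)]
    intro h
    have := congrArg List.length h
    rw [sg_length] at this
    simp at this
  · rw [List.getLast?_append_of_ne_nil, sg_last c (by omega)]
    intro h
    have := congrArg List.length h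
    rw [sg_length] at this
    simp at this
    omega
  · simp only [List.length_append, sg_length]
    have := hp.pos
    omega
  · intro x
    rw [List.mem_append, List.mem_append, mem_sg, mem_sg]
    constructor
    · rintro ((⟨i, h1, h2, h4⟩ | h) | ⟨i, h1, h2, h4⟩)
      · exact Or.inl ⟨i, by omega, by rw [Finset.mem_Ioo]; omega, h4⟩
      · exact Or.inr h
      · exact Or.inl ⟨i, by omega, by rw [Finset.mem_Ioo]; omega, h4⟩
    · rintro (⟨i, h1, h2, h4⟩ | h)
      · rw [Finset.mem_Ioo] at h2
        by_cases hia : i ≤ a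
        · exact Or.inl (Or.inl ⟨i, by omega, hia, h4⟩)
        · exact Or.inr ⟨i, by omega, by omega, h4⟩
      · exact Or.inl (Or.inr h)
  · exact hp.out
  · intro i hi
    rw [Finset.mem_Ioo] at hi
    exact ⟨by omega, hfree i (by omega) (by omega)⟩

theorem t_PR2 : S_PR2 := by
  intro V _ X n c a1 a2 b1 b2 R1 R2 hg h12 h21 hb12 hbn hf1 hf2 he1 he2 hdis
  have hcr := hg.cr
  have h3 := hcr.three
  have hp1 := earP he1
  have hp2 := earP he2
  have hR1ne : R1 ≠ [] := by
    intro h; have := hp1.pos; rw [h] at this; simp at this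
  have hR2ne : R2 ≠ [] := by
    intro h; have := hp2.pos; rw [h] at this; simp at this
  have hin1 : ∀ {i : ℕ} {x : V}, i < n → c i = x → x ∉ R1 := fun hi h hx =>
    not_img (hp1.out _ hx).2 hi h
  have hin2 : ∀ {i : ℕ} {x : V}, i < n → c i = x → x ∉ R2 := fun hi h hx =>
    not_img (hp2.out _ hx).2 hi h
  have hne : ∀ {p q : ℕ}, p ≤ q → sg c p q ≠ [] := by
    intro p q hpq h
    have := congrArg List.length h
    rw [sg_length] at this
    simp at this
    omega
  apply mk_rer hg
  · rw [List.nodup_append, List.nodup_append, List.nodup_append, List.nodup_append]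
    refine ⟨⟨⟨⟨sg_nodup hcr (by omega), hp1.nodup, ?_⟩,
      List.nodup_reverse.mpr (sg_nodup hcr (by omega)), ?_⟩, hp2.nodup, ?_⟩,
      sg_nodup hcr (by omega), ?_⟩
    · intro x hx y hy hxy
      obtain ⟨i, _, h2, h4⟩ := mem_sg.mp hx
      exact hin1 (by omega) h4 (hxy ▸ hy)
    · intro x hx y hy hxy
      obtain ⟨j, h1', h2', h4'⟩ := mem_sg.mp (List.mem_reverse.mp hy)
      rcases List.mem_append.mp hx with hx | hx
      · obtain ⟨i, _, h2, h4⟩ := mem_sg.mp hx
        have := hcr.inj i j (by omega) (by omega) (by rw [h4, h4', hxy])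
        omega
      · exact hin1 (by omega) h4' (hxy ▸ hx)
    · intro x hx y hy hxy
      rcases List.mem_append.mp hx with hx | hx
      · rcases List.mem_append.mp hx with hx | hx
        · obtain ⟨i, _, h2, h4⟩ := mem_sg.mp hx
          exact hin2 (by omega) h4 (hxy ▸ hy)
        · exact hdis x hx (hxy ▸ hy)
      · obtain ⟨i, _, h2, h4⟩ := mem_sg.mp (List.mem_reverse.mp hx)
        exact hin2 (by omega) h4 (hxy ▸ hy)
    · intro x hx y hy hxy
      obtain ⟨j, h1', h2', h4'⟩ := mem_sg.mp hy
      rcases List.mem_append.mp hx with hx | hx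
      · rcases List.mem_append.mp hx with hx | hx
        · rcases List.mem_append.mp hx with hx | hx
          · obtain ⟨i, _, h2, h4⟩ := mem_sg.mp hx
            have := hcr.inj i j (by omega) (by omega) (by rw [h4, h4', hxy])
            omega
          · exact hin1 (by omega) h4' (hxy ▸ hx)
        · obtain ⟨i, _, h2, h4⟩ := mem_sg.mp (List.mem_reverse.mp hx)
          have := hcr.inj i j (by omega) (by omega) (by rw [h4, h4', hxy])
          omega
      · exact hin2 (by omega) h4' (hxy ▸ hx)
  · refine chain_app (chain_app (chain_app (chain_app (sg_chain hcr (by omega)) hp1.chain ?_)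
      (sgr_chain hcr (by omega)) ?_) hp2.chain ?_) (sg_chain hcr (by omega)) ?_
    · intro x hx y hy
      rw [sg_last c (by omega)] at hx
      cases hx
      exact hp1.fst y hy
    · intro x hx y hy
      rw [List.head?_reverse, sg_last c (by omega)] at hy
      cases hy
      rw [List.getLast?_append_of_ne_nil _ hR1ne] at hx
      exact hp1.lst x hx
    · intro x hx y hy
      rw [List.getLast?_append_of_ne_nil _ (by simpa using hne (by omega)), List.getLast?_reverse,
        sg_head c (by omega)] at hx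
      cases hx
      exact hp2.fst y hy
    · intro x hx y hy
      rw [sg_head c (by omega)] at hy
      cases hy
      rw [List.getLast?_append_of_ne_nil _ hR2ne] at hx
      exact hp2.lst x hx
  · simp only [List.append_assoc]
    rw [List.head?_append_of_ne_nil, sg_head c (by omega)]
    exact hne (by omega)
  · rw [List.getLast?_append_of_ne_nil, sg_last c (by omega)]
    exact hne (by omega)
  · simp only [List.length_append, List.length_reverse, sg_length]
    have := hp1.pos
    have := hp2.pos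
    omega
  · intro x
    simp only [List.mem_append, List.mem_reverse, mem_sg]
    constructor
    · rintro ((((⟨i, h1, h2, h4⟩ | h) | ⟨i, h1, h2, h4⟩) | h) | ⟨i, h1, h2, h4⟩)
      · exact Or.inl ⟨i, by omega, by rw [Finset.mem_union, Finset.mem_Ioo, Finset.mem_Ioo]; omega, h4⟩
      · exact Or.inr (Or.inl h)
      · exact Or.inl ⟨i, by omega, by rw [Finset.mem_union, Finset.mem_Ioo, Finset.mem_Ioo]; omega, h4⟩
      · exact Or.inr (Or.inr h)
      · exact Or.inl ⟨i, by omega, by rw [Finset.mem_union, Finset.mem_Ioo, Finset.mem_Ioo]; omega, h4⟩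
    · rintro (⟨i, h1, h2, h4⟩ | h | h)
      · rw [Finset.mem_union, Finset.mem_Ioo, Finset.mem_Ioo] at h2
        by_cases hia : i ≤ a1
        · exact Or.inl (Or.inl (Or.inl (Or.inl ⟨i, by omega, hia, h4⟩)))
        · by_cases hib : i ≤ b1
          · exact Or.inl (Or.inl (Or.inr ⟨i, by omega, hib, h4⟩))
          · exact Or.inr ⟨i, by omega, by omega, h4⟩
      · exact Or.inl (Or.inl (Or.inl (Or.inr h)))
      · exact Or.inl (Or.inr h)
  · intro x hx
    rcases List.mem_append.mp hx with hx | hx
    · exact hp1.out x hx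
    · exact hp2.out x hx
  · intro i hi
    rw [Finset.mem_union, Finset.mem_Ioo, Finset.mem_Ioo] at hi
    rcases hi with hi | hi
    · exact ⟨by omega, hf1 i (by omega) (by omega)⟩
    · exact ⟨by omega, hf2 i (by omega) (by omega)⟩

end Pool.Agent.W120.CH
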